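import Pool.Agent.N625.PT.I
import Pool.Agent.N625.PT.H

/-!
# Prime tuples for all the multiples of all the integers near random integers with exchangeable blocks of digits

Nothing is used besides Mathlib in the statement:
`∑ v ∈ piFinset (fun _ => range (b ^ k)), (if P v then 0 else ∏ i, p i (v i))` is the probability that the vector of the
independent random integers `v i < b ^ k` with the distributions `p i` does not have the property `P`.
-/

set_option autoImplicit false

namespace Pool.Agent.Results.MP_f686a1_nt.ExchangeableMultiples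

open Finset

/-- The set `{0, a 1, ..., a s}` is admissible: for every prime `p` some class modulo `p` contains none of its elements. -/
def Admissible {s : ℕ} (a : Fin s → ℕ) : Prop :=
  ∀ p : ℕ, p.Prime → ∃ c : ℕ, ¬ 0 ≡ c [MOD p] ∧ ∀ i, ¬ a i ≡ c [MOD p]

/-- the number of the `n ≤ N` for which `n` and all the numbers `n + a i` are primes -/
def count {s : ℕ} (a : Fin s → ℕ) (N : ℕ) : ℕ := ((Icc 1 N).filter (fun n : ℕ => n.Prime ∧ ∀ i, (n + a i).Prime)).card

/-- the number of the classes `r` modulo `p` for which `p` divides one of the numbers `r`, `r + a i` -/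
def nu {s : ℕ} (a : Fin s → ℕ) (p : ℕ) : ℕ := ((range p).filter (fun r => p ∣ r ∨ ∃ i, p ∣ r + a i)).card

/-- the product over the primes `p ≤ z` which occurs in the singular series -/
noncomputable def sing {s : ℕ} (a : Fin s → ℕ) (z : ℕ) : ℝ :=
  ∏ p ∈ (Icc 1 z).filter Nat.Prime, (1 - (nu a p : ℝ) / p) / (1 - 1 / (p : ℝ)) ^ (s + 1)

/-- The singular series converges, and if `{0, a 1, ..., a s}` is admissible then its value `S` is positive and the number
of the `n ≤ N` for which `n` and all the `n + a i` are primes is `S N / log ^ (s + 1) N` up to a relative error of at most `ε`. -/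
def HardyLittlewood {s : ℕ} (ε : ℝ) (N : ℕ) (a : Fin s → ℕ) : Prop :=
  ∃ S : ℝ, Filter.Tendsto (fun z => sing a z) Filter.atTop (nhds S) ∧
    (Admissible a → 0 < S ∧
      |(count a N : ℝ) - S * (N / Real.log N ^ (s + 1))| ≤ ε * (S * (N / Real.log N ^ (s + 1))))

/-- The probability, for the distribution `μ` on the words of `k` digits (the integers `v < b ^ k`), that the word begins with
the `i` digits of `u < b ^ i`. -/
noncomputable def begins (b k : ℕ) (μ : ℕ → ℝ) (i u : ℕ) : ℝ := ∑ w ∈ range (b ^ (k - i)), μ (u * b ^ (k - i) + w)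

/-- `p` is a probability on the words of `k` digits in base `b`, read as integers `v < b ^ k`. There is another probability
`μ` with `p ≤ k ^ T μ` such that after every beginning `u` two different blocks `a`, `a'` of `L` digits can be exchanged:
`p (u a w) = r p (u a' w)` for all endings `w`, with a factor `r` between `η` and `1 / η` which does not depend on `w`; and
given the beginning `u`, each of the two blocks comes next with a probability of at least `η` in the distribution `μ`.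
(For `T = 0` one has `μ = p`. For the uniform distribution on a set of words `r` is `1`.) -/
structure Exchangeable (b L : ℕ) (η : ℝ) (T k : ℕ) (p : ℕ → ℝ) : Prop where
  nonneg : ∀ v, 0 ≤ p v
  sum : ∑ v ∈ range (b ^ k), p v = 1
  dominated : ∃ μ : ℕ → ℝ, (∀ v, 0 ≤ μ v) ∧ ∑ v ∈ range (b ^ k), μ v = 1 ∧ (∀ v < b ^ k, p v ≤ (k : ℝ) ^ T * μ v) ∧
    ∀ i u : ℕ, i + L ≤ k → u < b ^ i → ∃ (a a' : ℕ) (r : ℝ), a < a' ∧ a' < b ^ L ∧ η ≤ r ∧ η * r ≤ 1 ∧
      (∀ w < b ^ (k - (i + L)), p ((b ^ L * u + a) * b ^ (k - (i + L)) + w) = r * p ((b ^ L * u + a') * b ^ (k - (i + L)) + w)) ∧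
      η * begins b k μ i u ≤ begins b k μ (i + L) (b ^ L * u + a) ∧
      η * begins b k μ i u ≤ begins b k μ (i + L) (b ^ L * u + a')

lemma begins_sum (b k : ℕ) (μ : ℕ → ℝ) (i u : ℕ) (hi : i < k) :
    ∑ a ∈ range b, begins b k μ (i + 1) (b * u + a) = begins b k μ i u := by
  unfold begins
  obtain ⟨n, hn⟩ : ∃ n, k - i = n + 1 := ⟨k - i - 1, by omega⟩
  have h1 : k - (i + 1) = n := by omega
  rw [h1, hn, pow_succ, mul_comm (b ^ n) b, Pool.Agent.N625.PT.sum_blocks b (b ^ n)]
  apply sum_congr rfl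
  intro a _
  apply sum_congr rfl
  intro w _
  congr 1
  ring

lemma flex_of {b L T k : ℕ} {η : ℝ} {p : ℕ → ℝ} (hp : Exchangeable b L η T k p) : Pool.Agent.N625.PT.Flex b L η T k p := by
  obtain ⟨h0, h1, μ, m0, m1, m2, m3⟩ := hp
  have hT : (0 : ℝ) ≤ (k : ℝ) ^ T := by positivity
  have hb0 : ∀ i u, 0 ≤ begins b k μ i u := fun i u => sum_nonneg fun w _ => m0 _
  refine ⟨h0, h1, fun i u => (k : ℝ) ^ T * begins b k μ i u, fun i u => mul_nonneg hT (hb0 i u), ?_, ?_, ?_, ?_⟩
  · intro v hv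
    refine (m2 v hv).trans (le_of_eq ?_)
    unfold begins
    simp
  · intro i hi u _
    simp only
    rw [← mul_sum, begins_sum b k μ i u hi]
  · simp only
    have : begins b k μ 0 0 = 1 := by
      unfold begins
      simpa using m1
    rw [this, mul_one]
  · intro i u hi hu
    obtain ⟨a, a', r, q1, q2, q3, q4, q5, q6, q7⟩ := m3 i u hi hu
    refine ⟨a, a', r, q1, q2, q3, q4, q5, ?_, ?_⟩
    · simp only
      calc η * ((k : ℝ) ^ T * begins b k μ i u) = (k : ℝ) ^ T * (η * begins b k μ i u) := by ring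
        _ ≤ _ := mul_le_mul_of_nonneg_left q6 hT
    · simp only
      calc η * ((k : ℝ) ^ T * begins b k μ i u) = (k : ℝ) ^ T * (η * begins b k μ i u) := by ring
        _ ≤ _ := mul_le_mul_of_nonneg_left q7 hT

lemma sing_eq {s : ℕ} (a : Fin s → ℕ) (z : ℕ) : Pool.Agent.H373R2.T7.singZ (fun i => (a i : ℤ)) z = sing a z := by
  unfold Pool.Agent.H373R2.T7.singZ sing
  apply prod_congr rfl
  intro p _
  have : Pool.Agent.H373R2.T7.nuP (fun i => (a i : ℤ)) p = nu a p := by
    unfold Pool.Agent.H373R2.T7.nuP nu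
    congr 1
    apply filter_congr
    intro r _
    constructor
    · rintro (h | ⟨i, h⟩)
      · exact Or.inl h
      · refine Or.inr ⟨i, ?_⟩
        simp only at h
        exact_mod_cast h
    · rintro (h | ⟨i, h⟩)
      · exact Or.inl h
      · refine Or.inr ⟨i, ?_⟩
        simp only
        exact_mod_cast h
  rw [this]

lemma adm_of {s : ℕ} (a : Fin s → ℕ) (h : Admissible a) : Pool.Agent.H373R2.T7.Admissible (fun i => (a i : ℤ)) := by
  intro p hp
  obtain ⟨c, h1, h2⟩ := h p hp
  refine ⟨-(c : ℤ), ?_, fun i => ?_⟩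
  · intro h3
    apply h1
    rw [Int.dvd_neg] at h3
    have h4 : p ∣ c := by exact_mod_cast h3
    exact ((Nat.modEq_zero_iff_dvd).2 h4).symm
  · intro h3
    apply h2 i
    apply Nat.ModEq.symm
    rw [Nat.modEq_iff_dvd]
    have e : ((a i : ℕ) : ℤ) - (c : ℤ) = -(c : ℤ) + a i := by ring
    rw [e]
    exact h3

lemma hl_of {s : ℕ} {ε : ℝ} {U N : ℕ} {a : Fin s → ℕ} (h : Pool.Agent.W93.TD.HLs ε U N a) : HardyLittlewood ε N a := by
  obtain ⟨S, h1, -, h3⟩ := h
  refine ⟨S, ?_, fun hadm => h3 (adm_of a hadm)⟩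
  simp only [sing_eq] at h1
  exact h1

open Classical in
/-- **Prime tuples for all the multiples.** Let `s ≥ 1`, `b ≥ 2`, `L i ≥ 1`, `0 < η ≤ 1`, `T`, `κ i ≠ 0`, `B`, `J`, `J₂`, `W`,
`U` and `0 < ε < 1` be fixed, let `k` be large, let `k ^ (J + 1) b ^ k ≤ N ≤ k ^ J₂ b ^ k`, let `c i` be arbitrary integers
with `|c i| ≤ B b ^ k`, and let `p i` be arbitrary probabilities on the words of `k` digits in base `b` in which blocks
can be exchanged (`Exchangeable b (L i) η T k (p i)`). If the `v i` are independent random integers with the distributions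
`p i` then the following holds with a probability of at least `1 - 1 / k ^ U` for ALL the integers `q i ≥ 0` at a distance
of at most `k ^ W` from `c i + κ i * v i` and ALL the factors `1 ≤ h i ≤ k ^ J`: the singular series of the set
`{0, h 1 * q 1, ..., h s * q s}` converges, and if this set is admissible then the formula of Hardy and Littlewood holds
for the number of the `n ≤ N` for which `n` and all the numbers `n + h i * q i` are primes. In particular there is such an
`n ≤ x` for every real number `x ≥ N`. -/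
theorem result (s : ℕ) (hs : 1 ≤ s) (b : ℕ) (hb : 2 ≤ b) (L : Fin s → ℕ) (hL : ∀ i, 1 ≤ L i) (η : ℝ) (hη0 : 0 < η)
    (hη1 : η ≤ 1) (T : ℕ) (κ : Fin s → ℤ) (hκ : ∀ i, κ i ≠ 0) (B J J₂ W U : ℕ) (ε : ℝ) (hε : 0 < ε) (hε1 : ε < 1) :
    ∃ k₀ : ℕ, ∀ k : ℕ, k₀ ≤ k → ∀ p : Fin s → ℕ → ℝ, (∀ i, Exchangeable b (L i) η T k (p i)) →
      ∀ c : Fin s → ℤ, (∀ i, |c i| ≤ B * (b : ℤ) ^ k) →
      ∀ N : ℕ, k ^ (J + 1) * b ^ k ≤ N → N ≤ k ^ J₂ * b ^ k →
        ∑ v ∈ Fintype.piFinset (fun _ : Fin s => range (b ^ k)), (if ∀ q : Fin s → ℕ,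
            (∀ i, |(q i : ℤ) - (c i + κ i * v i)| ≤ (k : ℤ) ^ W) → ∀ h : Fin s → ℕ, (∀ i, 1 ≤ h i ∧ h i ≤ k ^ J) →
            HardyLittlewood ε N (fun i => h i * q i) ∧ (Admissible (fun i => h i * q i) →
              ∀ x : ℝ, (N : ℝ) ≤ x → ∃ n : ℕ, 0 < n ∧ (n : ℝ) ≤ x ∧ n.Prime ∧ ∀ i, (n + h i * q i).Prime)
          then 0 else ∏ i, p i (v i)) ≤ 1 / (k : ℝ) ^ U := by
  obtain ⟨k₀, hmain⟩ := Pool.Agent.N625.PT.t_tuples s hs hb κ (fun i => Pool.Agent.N625.PT.Flex b (L i) η T)
    (fun i => Pool.Agent.N625.PT.flex_tcls b (L i) hb (hL i) η hη0 hη1 T (κ i) (hκ i)) B J J₂ W U ε hε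
  refine ⟨k₀ + 3, fun k hk p hp c hc N hN1 hN2 => ?_⟩
  refine le_trans (sum_le_sum ?_) (hmain k (by omega) p (fun i => flex_of (hp i)) c hc N hN1 hN2)
  intro v _
  have hpv : 0 ≤ ∏ i, p i (v i) := prod_nonneg fun i _ => (hp i).nonneg _
  by_cases h : ∀ h : Fin s → ℕ, (∀ i, 1 ≤ h i ∧ h i ≤ k ^ J) →
      ∀ q : Fin s → ℕ, (∀ i, |(q i : ℤ) - (c i + κ i * v i)| ≤ (k : ℤ) ^ W) →
        Pool.Agent.W93.TD.HLs ε U N (fun i => h i * q i)
  · rw [if_pos h, if_pos]
    intro q hq h' hh'
    have h1 := hl_of (h h' hh' q hq)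
    refine ⟨h1, fun hadm x hx => ?_⟩
    obtain ⟨S, -, h2⟩ := h1
    obtain ⟨hS, h3⟩ := h2 hadm
    have hN3 : 3 ≤ N := by
      have g1 : 1 * b ^ k ≤ k ^ (J + 1) * b ^ k := Nat.mul_le_mul_right _ (Nat.one_le_pow _ _ (by omega))
      have g2 : k < b ^ k := Nat.lt_pow_self (by omega)
      omega
    have hNr : (3 : ℝ) ≤ N := by exact_mod_cast hN3
    have hlog : 0 < Real.log N := Real.log_pos (by linarith)
    have hpos : 0 < S * (N / Real.log N ^ (s + 1)) := by positivity
    have h4 : (0 : ℝ) < (count (fun i => h' i * q i) N : ℝ) := by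
      have := (abs_le.1 h3).1
      nlinarith
    have h5 : 0 < count (fun i => h' i * q i) N := by exact_mod_cast h4
    unfold count at h5
    rw [card_pos] at h5
    obtain ⟨n, hn⟩ := h5
    rw [mem_filter, mem_Icc] at hn
    exact ⟨n, hn.1.1, le_trans (by exact_mod_cast hn.1.2) hx, hn.2.1, hn.2.2⟩
  · rw [if_neg h]
    split_ifs
    · exact hpv
    · exact le_rfl

end Pool.Agent.Results.MP_f686a1_nt.ExchangeableMultiples
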