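import Pool.Agent.N384.MQ.MultV
import Pool.Agent.N384.MQ.Ex
import Pool.Agent.N384.MQ.Quot

/-!
# Prime tuples for all the multiples of all the integers near residues with small Fourier coefficients

From Mathlib: `ZMod.stdAddChar`: the additive character `j ↦ exp (2 π i j / M)` of the integers modulo `M`; `ZMod.val`: the
least residue; `Fintype.piFinset s`: the vectors `n` with `n i ∈ s i` for all `i`.

Method: a family of residues modulo `M` with small Fourier coefficients has small exponential sums at all real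
frequencies which are not close to integers, its least residues are not concentrated on short intervals, and the large
spectrum of all their multiples is thin. The passage from such exponential sums to prime tuples is from the
starting files (`Pool.Agent.Y885`) and helper625 (`Pool.Agent.N625.PT`). The fixed exponent `V` comes from a compactness
argument. Examples: a lemma of Ajtai, Iwaniec, Komlos, Pintz and Szemeredi on quotients by small primes, the Stepanov type
lemma of Heath-Brown and Konyagin for subgroups (library `H435R3.HBK`, `N825.FC`), and Weyl sums without losses (library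
`H373R2.NB`).
-/

set_option autoImplicit false

namespace Pool.Agent.Results.MP_f686a1_nt.ResidueFamilies

open Finset Filter

/-- The Fourier coefficients of the residues `y i`, `i ∈ s`, modulo `q` at the nonzero frequencies are at most
`η` times the number of the residues: `|∑ i ∈ s, e(h y_i / q)| ≤ η |s|` for all `h ≠ 0` modulo `q`. -/
def Flat {ι : Type} (q : ℕ) [NeZero q] (η : ℝ) (s : Finset ι) (y : ι → ZMod q) : Prop :=
  ∀ h : ZMod q, h ≠ 0 → ‖∑ i ∈ s, (ZMod.stdAddChar (h * y i) : ℂ)‖ ≤ η * s.card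

/-- The set `{0, a 1, ..., a s}` is admissible: for every prime `p` some class modulo `p` contains none of its elements. -/
def Admissible {s : ℕ} (a : Fin s → ℕ) : Prop :=
  ∀ p : ℕ, p.Prime → ∃ c : ℕ, ¬ 0 ≡ c [MOD p] ∧ ∀ i, ¬ a i ≡ c [MOD p]

/-- the number of the `n ≤ N` for which `n` and all the numbers `n + a i` are primes -/
def count {s : ℕ} (a : Fin s → ℕ) (N : ℕ) : ℕ := ((Icc 1 N).filter (fun n : ℕ => n.Prime ∧ ∀ i, (n + a i).Prime)).card

/-- the number of the classes `r` modulo `p` for which `p` divides one of the numbers `r`, `r + a i` -/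
def nu {s : ℕ} (a : Fin s → ℕ) (p : ℕ) : ℕ := ((range p).filter (fun r => p ∣ r ∨ ∃ i, p ∣ r + a i)).card

/-- the product over the primes `p ≤ z` which occurs in the singular series -/
noncomputable def sing {s : ℕ} (a : Fin s → ℕ) (z : ℕ) : ℝ :=
  ∏ p ∈ (Icc 1 z).filter Nat.Prime, (1 - (nu a p : ℝ) / p) / (1 - 1 / (p : ℝ)) ^ (s + 1)

/-- The singular series converges, and if `{0, a 1, ..., a s}` is admissible then its value `S` is positive and the number
of the `n ≤ N` for which `n` and all the `n + a i` are primes is `S N / log ^ (s + 1) N` up to a relative error of at most `ε`. -/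
def HardyLittlewood {s : ℕ} (ε : ℝ) (N : ℕ) (a : Fin s → ℕ) : Prop :=
  ∃ S : ℝ, Filter.Tendsto (fun z => sing a z) Filter.atTop (nhds S) ∧
    (Admissible a → 0 < S ∧
      |(count a N : ℝ) - S * (N / Real.log N ^ (s + 1))| ≤ ε * (S * (N / Real.log N ^ (s + 1))))

lemma sing_eq {s : ℕ} (a : Fin s → ℕ) (z : ℕ) : Pool.Agent.H373R2.T7.singZ (fun i => (a i : ℤ)) z = sing a z := by
  unfold Pool.Agent.H373R2.T7.singZ sing
  apply prod_congr rfl
  intro p _
  have : Pool.Agent.H373R2.T7.nuP (fun i => (a i : ℤ)) p = nu a p := by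
    unfold Pool.Agent.H373R2.T7.nuP nu
    congr 1
    apply filter_congr
    intro r _
    constructor
    · rintro (h | ⟨i, h⟩)
      · exact Or.inl h
      · refine Or.inr ⟨i, ?_⟩
        simp only at h
        exact_mod_cast h
    · rintro (h | ⟨i, h⟩)
      · exact Or.inl h
      · refine Or.inr ⟨i, ?_⟩
        simp only
        exact_mod_cast h
  rw [this]

lemma adm_of {s : ℕ} (a : Fin s → ℕ) (h : Admissible a) : Pool.Agent.H373R2.T7.Admissible (fun i => (a i : ℤ)) := by
  intro p hp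
  obtain ⟨c, h1, h2⟩ := h p hp
  refine ⟨-(c : ℤ), ?_, fun i => ?_⟩
  · intro h3
    apply h1
    rw [Int.dvd_neg] at h3
    have h4 : p ∣ c := by exact_mod_cast h3
    exact ((Nat.modEq_zero_iff_dvd).2 h4).symm
  · intro h3
    apply h2 i
    apply Nat.ModEq.symm
    rw [Nat.modEq_iff_dvd]
    have e : ((a i : ℕ) : ℤ) - (c : ℤ) = -(c : ℤ) + a i := by ring
    rw [e]
    exact h3

lemma hl_of {s : ℕ} {ε : ℝ} {U N : ℕ} {a : Fin s → ℕ} (h : Pool.Agent.W93.TD.HLs ε U N a) : HardyLittlewood ε N a := by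
  obtain ⟨S, h1, -, h3⟩ := h
  refine ⟨S, ?_, fun hadm => h3 (adm_of a hadm)⟩
  simp only [sing_eq] at h1
  exact h1

open Classical in
/-- **(1)** Let `r ≥ 1`, `κ i ≠ 0` (`i < r`), `J`, `J₂`, `W`, `U`, `a` and `0 < ε < 1` be fixed. There is a number `V` such that
the following holds for all large integers `N`. Let `y i`, `i < r`, be finite families (`y i j`, `j ∈ s i`) of residues modulo
integers `M i` with `N / log ^ a N ≤ M i ≤ N` whose Fourier coefficients at the nonzero frequencies are at most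
`|s i| / log ^ V (M i)`, let `|c i| ≤ N`, and let `N log ^ (J + 2) N ≤ X ≤ N log ^ J₂ N`. All the vectors `n` of members
`n i ∈ s i` of the families, up to a proportion of at most `1 / log ^ U N`, have the following property for ALL the integers
`q i ≥ 0` at a distance of at most `log ^ W N` from `c i + κ i * y i (n i)` and ALL the factors `1 ≤ h i ≤ log ^ J N`: the
singular series of the set `{0, h 1 * q 1, ..., h r * q r}` converges, and if this set is admissible then the formula of
Hardy and Littlewood holds for the number of the `n ≤ X` for which `n` and all the numbers `n + h i * q i` are primes. In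
particular there is such an `n ≤ x` for every real number `x ≥ X`.

**(2)**, **(3)** Examples. The condition of (1) holds modulo all large primes `p` for:
* the quotients `j / r` of the integers `0 ≤ j < S` by the primes `r ≤ R`, if `log ^ (V + 4) p ≤ R < p` and `R ^ 2 ≤ S`; thus
  there are such explicit sets with only `log ^ (3 V + 12) p` members;
* the cosets of all subgroups of the multiplicative group of an order of at least `p ^ (3/8) log ^ (3 V + 1) p`;
* the residues `a b + g(a) + k(b)`, `a ∈ A`, `b ∈ B`, for arbitrary sets with `|A| |B| ≥ p log ^ (2 V) p` and arbitrary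
  functions `g` and `k`;
* the values `f(n)`, `0 ≤ n < x`, of all integer polynomials of degree `d` whose leading coefficient is not divisible by
  `p`, if `x ^ d ≥ p log ^ C p`, where `C` depends on `d` and `V`. -/
theorem result :
    (∀ r : ℕ, 1 ≤ r → ∀ κ : Fin r → ℤ, (∀ i, κ i ≠ 0) → ∀ (J J₂ W U a : ℕ) (ε : ℝ), 0 < ε → ε < 1 →
      ∃ V N₀ : ℕ, ∀ N : ℕ, N₀ ≤ N →
      ∀ (M : Fin r → ℕ) [∀ i, NeZero (M i)], (∀ i, M i ≤ N) → (∀ i, (N : ℝ) ≤ M i * Real.log N ^ a) →
      ∀ (ι : Fin r → Type) (s : ∀ i, Finset (ι i)) (y : ∀ i, ι i → ZMod (M i)),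
      (∀ i, Flat (M i) (1 / Real.log (M i) ^ V) (s i) (y i)) → ∀ c : Fin r → ℤ, (∀ i, |c i| ≤ N) →
      ∀ X : ℕ, (N : ℝ) * Real.log N ^ (J + 2) ≤ X → (X : ℝ) ≤ N * Real.log N ^ J₂ →
      (((Fintype.piFinset s).filter fun n => ¬ ∀ q : Fin r → ℕ,
        (∀ i, |(q i : ℝ) - (c i + κ i * ((y i (n i)).val : ℕ))| ≤ Real.log N ^ W) →
        ∀ h : Fin r → ℕ, (∀ i, 1 ≤ h i ∧ (h i : ℝ) ≤ Real.log N ^ J) →
        HardyLittlewood ε X (fun i => h i * q i) ∧ (Admissible (fun i => h i * q i) →
          ∀ x : ℝ, (X : ℝ) ≤ x → ∃ n : ℕ, 0 < n ∧ (n : ℝ) ≤ x ∧ n.Prime ∧ ∀ i, (n + h i * q i).Prime)).card : ℝ) ≤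
        (∏ i, ((s i).card : ℝ)) / Real.log N ^ U) ∧
    (∀ V : ℕ, ∃ P₀ : ℕ, ∀ p : ℕ, P₀ ≤ p → ∀ [Fact p.Prime],
      (∀ R S : ℕ, Real.log p ^ (V + 4) ≤ R → R < p → R ^ 2 ≤ S →
        Flat p (1 / Real.log p ^ V) (((Icc 1 R).filter Nat.Prime) ×ˢ range S)
          (fun z => ((z.2 : ℕ) : ZMod p) * ((z.1 : ℕ) : ZMod p)⁻¹)) ∧
      (∀ (H : Subgroup (ZMod p)ˣ) (s : Finset (ZMod p)ˣ), (∀ u, u ∈ s ↔ u ∈ H) →
        (p : ℝ) ^ (3 / 8 : ℝ) * Real.log p ^ (3 * V + 1) ≤ s.card → ∀ x : ZMod p, x ≠ 0 →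
        Flat p (1 / Real.log p ^ V) s (fun u => x * (u : ZMod p))) ∧
      (∀ (A B : Finset (ZMod p)) (g k : ZMod p → ZMod p), (p : ℝ) * Real.log p ^ (2 * V) ≤ A.card * B.card →
        Flat p (1 / Real.log p ^ V) (A ×ˢ B) (fun z => z.1 * z.2 + g z.1 + k z.2))) ∧
    (∀ d V : ℕ, 1 ≤ d → ∃ C P₀ : ℕ, ∀ p : ℕ, P₀ ≤ p → ∀ [Fact p.Prime] (f : Polynomial ℤ), f.natDegree = d →
      ¬ (p : ℤ) ∣ f.leadingCoeff → ∀ x : ℕ, (p : ℝ) * Real.log p ^ C ≤ (x : ℝ) ^ d →
      Flat p (1 / Real.log p ^ V) (range x) (fun n => ((f.eval (n : ℤ) : ℤ) : ZMod p))) := by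
  refine ⟨fun r hr κ hκ J J₂ W U a ε hε hε1 => ?_, fun V => ?_, fun d V hd => ?_⟩
  · obtain ⟨V, N₀, hmain⟩ := Pool.Agent.N384.MQ.mq_tuplesT r hr κ hκ J J₂ W U a ε hε
    refine ⟨V, N₀ + 4, fun N hN M _ hM1 hM2 ι s y hf c hc X hX1 hX2 => ?_⟩
    have hl1 := Pool.Agent.N193.PS.log_pos4 N (by omega)
    refine le_trans (Nat.cast_le.2 (card_le_card fun n hn => ?_)) (hmain N (by omega) M hM1 hM2 ι s y hf c hc X hX1 hX2)
    rw [mem_filter] at hn ⊢
    refine ⟨hn.1, fun hcon => hn.2 ?_⟩
    intro q hq h' hh'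
    have h1 := hl_of (hcon q hq h' hh')
    refine ⟨h1, fun hadm x hx => ?_⟩
    obtain ⟨S, -, h2⟩ := h1
    obtain ⟨hS, h3⟩ := h2 hadm
    have hN4 : (4 : ℝ) ≤ N := by exact_mod_cast (by omega : 4 ≤ N)
    have hXr : (3 : ℝ) ≤ X := by
      have : (1 : ℝ) ≤ Real.log N ^ (J + 2) := one_le_pow₀ hl1
      nlinarith
    have hlog : 0 < Real.log X := Real.log_pos (by linarith)
    have hpos : 0 < S * (X / Real.log X ^ (r + 1)) := by positivity
    have h4 : (0 : ℝ) < (count (fun i => h' i * q i) X : ℝ) := by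
      have := (abs_le.1 h3).1
      nlinarith
    have h5 : 0 < count (fun i => h' i * q i) X := by exact_mod_cast h4
    unfold count at h5
    rw [card_pos] at h5
    obtain ⟨n, hn⟩ := h5
    rw [mem_filter, mem_Icc] at hn
    exact ⟨n, hn.1.1, le_trans (by exact_mod_cast hn.1.2) hx, hn.2.1, hn.2.2⟩
  · obtain ⟨P₁, h1⟩ := Pool.Agent.N384.MQ.flat_quot V
    obtain ⟨P₂, h2⟩ := Pool.Agent.N384.MQ.flat_coset V
    obtain ⟨P₃, h3⟩ := Pool.Agent.N384.MQ.flat_prod V
    exact ⟨P₁ + P₂ + P₃, fun p hp _ => ⟨fun R S => h1 p (by omega) R S, fun H s => h2 p (by omega) H s,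
      fun A B g k => h3 p (by omega) A B g k⟩⟩
  · exact Pool.Agent.N384.MQ.flat_poly d V hd

end Pool.Agent.Results.MP_f686a1_nt.ResidueFamilies
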