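import Mathlib
import Pool.Agent.N893.SM.Grow
import Pool.Agent.N740.HK.Lim

/-!
# The sharp number of shifts in all sieved sequential random models of the primes

The integers are decided one after the other; the multiples of the primes of a finite set `Q` are
never chosen and the conditional probability of choosing an integer `n + 1` which is not such a
multiple, given the decisions up to `n`, is asymptotic to `∏_{p ∈ Q} (1 - 1 / p)⁻¹ / log n`, almost
surely.  No independence and no rate of convergence are assumed.  In every such model, for all large `x`,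
ALL sets of at most `(1 - δ) log x / log log x` shifts up to `x ^ C` which are admissible at the primes of
`Q` have an `n ≤ x` (and the number of these `n` is the expected one up to `(1 ± ε) ^ |D|`), and for each
`δ > 0` there are sets of at most `(1 + δ) log x / log log x` shifts up to `x ^ η`, not depending on chance,
which almost surely have no `n ≤ x` for all large `x`.

Method (`Pool/Agent/N893/SM`): for every system of linear forms the values are replaced one after the other,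
in increasing order, by their probabilities; the error of one replacement is controlled by the exponential
supermartingale `exp (θ ∑ w I - (e ^ θ - 1) ∑ w P)`, `I` the indicators, `P` the conditional probabilities,
`w ∈ [0, 1]` predictable, with a fixed small `θ`, so that it is `(1 ± θ)` times the old value plus
`O (|D| log x / θ)`.

The notion of a sequential model and the theorem on Hawkins' sieve are from the team files by helper528
(`Pool/Agent/R528/RM`) and helper740 (`Pool/Agent/N740/HK`).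
-/

set_option autoImplicit false

open MeasureTheory Filter Set
open scoped Topology

namespace Pool.Agent.Results.MP_f686a1_nt.SharpThreshold

variable {Ω : Type}

/-- `A n` is the event that `n` is chosen; adapted to `ℱ`; multiples of the primes in `Q` are not
chosen; the conditional probability of `A (n + 1)` given `ℱ n`, times `log n`, tends almost surely to
`∏_{p ∈ Q} (1 - 1 / p)⁻¹` along the `n` such that no `p ∈ Q` divides `n + 1` -/
def SievedModel [m : MeasurableSpace Ω] (μ : Measure Ω) (ℱ : Filtration ℕ m) (A : ℕ → Set Ω)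
    (Q : Finset ℕ) : Prop :=
  (∀ n, MeasurableSet[ℱ n] (A n)) ∧ (∀ n, (∃ p ∈ Q, p ∣ n) → A n = ∅) ∧
  ∀ᵐ ω ∂μ, Tendsto (fun n : ℕ => (μ[(A (n + 1)).indicator (fun _ => (1 : ℝ)) | ℱ n]) ω * Real.log n)
    (atTop ⊓ 𝓟 {n : ℕ | ∀ p ∈ Q, ¬ p ∣ n + 1}) (𝓝 (∏ p ∈ Q, (1 - 1 / (p : ℝ))⁻¹))

open Classical in
/-- The random sieve of Hawkins: `2` is chosen, and given the decisions up to `n ≥ 2` the number
`n + 1` is chosen with probability `∏ (1 - 1 / h)`, the product over the chosen `2 ≤ h ≤ n`. -/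
def HawkinsSieve [m : MeasurableSpace Ω] (μ : Measure Ω) (ℱ : Filtration ℕ m) (A : ℕ → Set Ω) : Prop :=
  (∀ n, MeasurableSet[ℱ n] (A n)) ∧ A 2 = univ ∧
  ∀ n, 2 ≤ n → μ[(A (n + 1)).indicator (fun _ => (1 : ℝ)) | ℱ n] =ᵐ[μ]
    fun ω => ∏ h ∈ Finset.Icc 2 n, if ω ∈ A h then 1 - 1 / (h : ℝ) else 1

/-- the number of `1 ≤ m ≤ x` such that all `m + d`, `d ∈ D`, are chosen -/
noncomputable def tuples (A : ℕ → Set Ω) (ω : Ω) (D : Finset ℕ) (x : ℕ) : ℕ :=
  {m : ℕ | 1 ≤ m ∧ m ≤ x ∧ ∀ d ∈ D, ω ∈ A (m + d)}.ncard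

/-- for every prime `p` of `Q` some residue class modulo `p` contains no element of `D` -/
def Admissible (Q D : Finset ℕ) : Prop := ∀ p ∈ Q, (D.image (· % p)).card < p

open Classical in
/-- the asymptotic probability of `m` -/
noncomputable def prob (Q : Finset ℕ) (m : ℕ) : ℝ :=
  if ∀ p ∈ Q, ¬ p ∣ m then min 1 ((∏ p ∈ Q, (1 - 1 / (p : ℝ))⁻¹) / Real.log m) else 0

/-- the expected number of tuples -/
noncomputable def expected (Q D : Finset ℕ) (x : ℕ) : ℝ := ∑ m ∈ Finset.Icc 1 x, ∏ d ∈ D, prob Q (m + d)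

open Pool.Agent.R528.RM Pool.Agent.N893.SM

lemma tuples_eq (A : ℕ → Set Ω) (ρ : ℕ → ℝ) (ω : Ω) (D : Finset ℕ) (x : ℕ) :
    (tuples A ω D x : ℝ) = TN A ρ x D ∅ ω := by
  classical
  unfold tuples TN
  simp only [Finset.prod_empty, mul_one]
  have h1 : ∀ n, (∏ h ∈ D, In A (n + 1 + h) ω) = if (∀ d ∈ D, ω ∈ A (n + 1 + d)) then (1 : ℝ) else 0 := by
    intro n
    by_cases h : ∀ d ∈ D, ω ∈ A (n + 1 + d)
    · rw [if_pos h]
      refine Finset.prod_eq_one fun d hd => ?_
      unfold In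
      exact indicator_of_mem (h d hd) _
    · rw [if_neg h]
      push Not at h
      obtain ⟨d, hd, hn⟩ := h
      refine Finset.prod_eq_zero hd ?_
      unfold In
      exact indicator_of_notMem hn _
  simp_rw [h1]
  rw [Finset.sum_boole]
  congr 1
  have e : {m : ℕ | 1 ≤ m ∧ m ≤ x ∧ ∀ d ∈ D, ω ∈ A (m + d)} =
      (((Finset.range x).filter fun n => ∀ d ∈ D, ω ∈ A (n + 1 + d)).image (fun n => n + 1) : Finset ℕ) := by
    ext m
    simp only [mem_ofPred_eq, Finset.coe_image, Finset.coe_filter, Finset.mem_range, mem_image]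
    constructor
    · rintro ⟨h1, h2, h3⟩
      refine ⟨m - 1, ⟨by omega, ?_⟩, by omega⟩
      rw [show m - 1 + 1 = m by omega]
      exact h3
    · rintro ⟨r, ⟨h1, h2⟩, rfl⟩
      exact ⟨by omega, by omega, h2⟩
  rw [e, ncard_coe_finset, Finset.card_image_of_injective _ (fun a b h => by simpa using h)]

lemma prob_eq (Q : Finset ℕ) (hQ : ∀ p ∈ Q, p.Prime) (m : ℕ) : prob Q m = rhoW (∏ p ∈ Q, p) m := by
  unfold prob rhoW
  rw [totient_prod Q hQ]
  simp_rw [coprime_prod_iff Q hQ m]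

lemma expected_eq (A : ℕ → Set Ω) (Q : Finset ℕ) (hQ : ∀ p ∈ Q, p.Prime) (D : Finset ℕ) (x : ℕ) (ω : Ω) :
    expected Q D x = TN A (rhoW (∏ p ∈ Q, p)) x ∅ D ω := by
  unfold expected TN
  simp only [Finset.prod_empty, one_mul]
  rw [Finset.range_eq_Ico, Finset.sum_Ico_add' (fun m => ∏ h ∈ D, rhoW (∏ p ∈ Q, p) (m + h)) 0 x 1]
  refine Finset.sum_congr ?_ fun m _ => Finset.prod_congr rfl fun h _ => prob_eq Q hQ _
  ext m
  simp only [Finset.mem_Icc, Finset.mem_Ico]
  omega

lemma adm_sing {Q D : Finset ℕ} (hQ : ∀ p ∈ Q, p.Prime) (h : Admissible Q D) : singH Q D ≠ 0 := by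
  intro h0
  obtain ⟨p, hp, ho⟩ := singH_zero hQ h0
  have := h p hp
  unfold occ at ho
  omega

lemma adm_Dj {Q : Finset ℕ} (hQ : ∀ p ∈ Q, p.Prime) (δ η : ℝ) (j : ℕ) : Admissible Q (Dj (∏ p ∈ Q, p) δ η j) := by
  intro p hp
  have h1 : (Dj (∏ p ∈ Q, p) δ η j).image (· % p) ⊆ {0} := by
    intro r hr
    obtain ⟨d, hd, rfl⟩ := Finset.mem_image.1 hr
    unfold Dj at hd
    obtain ⟨i, _, rfl⟩ := Finset.mem_image.1 hd
    rw [Finset.mem_singleton]
    exact Nat.mod_eq_zero_of_dvd ((Finset.dvd_prod_of_mem _ hp).mul_right _)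
  have h2 := Finset.card_le_card h1
  rw [Finset.card_singleton] at h2
  have := (hQ p hp).two_le
  omega

lemma log_bounds {x : ℕ} (hx : 2 ≤ x) : ((Nat.log 2 x : ℕ) : ℝ) * Real.log 2 ≤ Real.log x ∧ x < 2 ^ (Nat.log 2 x + 1) := by
  constructor
  · have h1 : 2 ^ Nat.log 2 x ≤ x := Nat.pow_log_le_self 2 (by omega)
    have h2 : ((2 : ℝ)) ^ Nat.log 2 x ≤ x := by exact_mod_cast h1
    have h3 := Real.log_le_log (by positivity) h2
    rwa [Real.log_pow] at h3
  · exact Nat.lt_pow_succ_log_self (by norm_num) x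

lemma tendsto_log2 : Tendsto (fun x : ℕ => Nat.log 2 x) atTop atTop := by
  rw [tendsto_atTop_atTop]
  intro b
  refine ⟨2 ^ b, fun x hx => ?_⟩
  exact (Nat.le_log_iff_pow_le (by norm_num) (by have := Nat.two_pow_pos b; omega)).2 hx

lemma size_Dj (Q : Finset ℕ) (hQ : ∀ p ∈ Q, p.Prime) {δ : ℝ} (hδ : 0 < δ) (η : ℝ) : ∀ᶠ x : ℕ in atTop,
    ((Dj (∏ p ∈ Q, p) δ η (Nat.log 2 x)).card : ℝ) ≤ (1 + δ) * (Real.log x / Real.log (Real.log x)) := by
  have hW : 0 < ∏ p ∈ Q, p := Finset.prod_pos fun q hq => (hQ q hq).pos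
  filter_upwards [tendsto_log2.eventually (tendsto_u.eventually_ge_atTop (Real.exp 1)), eventually_ge_atTop 2] with x h1 h2
  rw [Dj_card hW]
  obtain ⟨h3, _⟩ := log_bounds h2
  set u : ℝ := ((Nat.log 2 x : ℕ) : ℝ) * Real.log 2
  have he : 1 < Real.exp 1 := Real.one_lt_exp_iff.2 one_pos
  have hu : 1 ≤ Real.log u := by
    rw [Real.le_log_iff_exp_le (by linarith)]
    exact h1
  have hL : 1 ≤ Real.log (Real.log x) := by
    rw [Real.le_log_iff_exp_le (by linarith)]
    exact h1.trans h3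
  have h4 := Real.log_div_self_antitoneOn (show u ∈ {x | Real.exp 1 ≤ x} from h1)
    (show Real.log x ∈ {x | Real.exp 1 ≤ x} from h1.trans h3) h3
  have h5 : u / Real.log u ≤ Real.log x / Real.log (Real.log x) := by
    rw [div_le_div_iff₀ (by linarith) (by linarith)] at h4 ⊢
    linarith
  have hnn : 0 ≤ (1 + δ) * (u / Real.log u) := by
    have : 0 ≤ u / Real.log u := div_nonneg (by linarith) (by linarith)
    nlinarith
  unfold kj
  refine (Nat.floor_le hnn).trans ?_
  exact mul_le_mul_of_nonneg_left h5 (by linarith)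

lemma range_Dj (Q : Finset ℕ) (hQ : ∀ p ∈ Q, p.Prime) {δ η : ℝ} (hδ : 0 < δ) (hη : 0 < η) : ∀ᶠ x : ℕ in atTop,
    ∀ d ∈ Dj (∏ p ∈ Q, p) δ η (Nat.log 2 x), (d : ℝ) ≤ (x : ℝ) ^ η := by
  have hW : 0 < ∏ p ∈ Q, p := Finset.prod_pos fun q hq => (hQ q hq).pos
  have hsize := size_Dj Q hQ hδ η
  set W := ∏ p ∈ Q, p
  have hW' : (0 : ℝ) < W := by exact_mod_cast hW
  have hLL : Tendsto (fun x : ℕ => Real.log (Real.log x)) atTop atTop := Real.tendsto_log_atTop.comp tendsto_log
  have h0 : ∀ᶠ x : ℕ in atTop, (1 + δ) * Real.log x ≤ (x : ℝ) ^ (η / 2) := by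
    have h1 := (isLittleO_log_rpow_atTop (show 0 < η / 2 by positivity)).bound (show 0 < 1 / (1 + δ) by positivity)
    filter_upwards [tendsto_natCast_atTop_atTop.eventually h1, eventually_ge_atTop 1] with x h6 hx1
    have hx : (1 : ℝ) ≤ x := by exact_mod_cast hx1
    have hL : 0 ≤ Real.log (x : ℝ) := Real.log_nonneg hx
    rw [Real.norm_eq_abs, Real.norm_eq_abs, abs_of_nonneg hL, abs_of_nonneg (Real.rpow_nonneg (by linarith) _)] at h6
    have h7 := mul_le_mul_of_nonneg_left h6 (show 0 ≤ 1 + δ by positivity)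
    refine h7.trans (le_of_eq ?_)
    field_simp
  have h0' : Tendsto (fun x : ℕ => (x : ℝ) ^ (η / 2)) atTop atTop :=
    (tendsto_rpow_atTop (by positivity)).comp tendsto_natCast_atTop_atTop
  filter_upwards [hsize, h0, h0'.eventually_ge_atTop (2 * (W : ℝ)), eventually_ge_atTop 2, hLL.eventually_ge_atTop (1 : ℝ)]
    with x h1 h2 h3 h4 h5 d hd
  have hx : (2 : ℝ) ≤ x := by exact_mod_cast h4
  have hL : 0 < Real.log (x : ℝ) := Real.log_pos (by linarith)
  rw [Dj_card hW] at h1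
  unfold Dj at hd
  obtain ⟨i, hi, rfl⟩ := Finset.mem_image.1 hd
  rw [Finset.mem_range] at hi
  have hi' : (i : ℝ) ≤ (x : ℝ) ^ (η / 2) := by
    have g1 : (i : ℝ) ≤ kj δ (Nat.log 2 x) := by exact_mod_cast hi.le
    have g2 : Real.log (x : ℝ) / Real.log (Real.log x) ≤ Real.log x := div_le_self hL.le h5
    have g3 := mul_le_mul_of_nonneg_left g2 (show 0 ≤ 1 + δ by positivity)
    linarith
  have ha : (aj η (Nat.log 2 x) : ℝ) ≤ (x : ℝ) ^ (η / 2) := by
    unfold aj
    push_cast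
    have g1 : (⌊η * ((Nat.log 2 x : ℕ) : ℝ) / 2⌋₊ : ℝ) ≤ η * ((Nat.log 2 x : ℕ) : ℝ) / 2 := Nat.floor_le (by positivity)
    have g2 : ((2 : ℝ)) ^ ⌊η * ((Nat.log 2 x : ℕ) : ℝ) / 2⌋₊ ≤ (2 : ℝ) ^ (η * ((Nat.log 2 x : ℕ) : ℝ) / 2) := by
      rw [← Real.rpow_natCast]
      exact Real.rpow_le_rpow_of_exponent_le (by norm_num) g1
    refine g2.trans ?_
    have g3 : (2 : ℝ) ^ (η * ((Nat.log 2 x : ℕ) : ℝ) / 2) = ((2 : ℝ) ^ ((Nat.log 2 x : ℕ) : ℝ)) ^ (η / 2) := by
      rw [← Real.rpow_mul (by norm_num)]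
      congr 1
      ring
    rw [g3]
    refine Real.rpow_le_rpow (by positivity) ?_ (by positivity)
    rw [Real.rpow_natCast]
    have : 2 ^ Nat.log 2 x ≤ x := Nat.pow_log_le_self 2 (by omega)
    exact_mod_cast this
  push_cast
  have e1 : (x : ℝ) ^ η = (x : ℝ) ^ (η / 2) * (x : ℝ) ^ (η / 2) := by
    rw [← Real.rpow_add (by linarith)]
    congr 1
    ring
  rw [e1]
  have hp : 0 < (x : ℝ) ^ (η / 2) := Real.rpow_pos_of_pos (by linarith) _
  calc (W : ℝ) * (aj η (Nat.log 2 x) + i) ≤ W * ((x : ℝ) ^ (η / 2) + (x : ℝ) ^ (η / 2)) :=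
        mul_le_mul_of_nonneg_left (by linarith) hW'.le
    _ = (2 * W) * (x : ℝ) ^ (η / 2) := by ring
    _ ≤ _ := mul_le_mul_of_nonneg_right h3 hp.le

end Pool.Agent.Results.MP_f686a1_nt.SharpThreshold

open Pool.Agent.Results.MP_f686a1_nt.SharpThreshold

/-- Hawkins' sieve is a sieved model with `Q = ∅`; and in every sieved model: (1) almost surely, for all
`δ, ε ∈ (0, 1)` and `C`, for all large `x` and ALL sets `D` of at most `(1 - δ) log x / log log x` integers
in `[0, x ^ C]` which are admissible at the primes of `Q`, the number `N` of `n ≤ x` with all `n + d`,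
`d ∈ D`, chosen is between `(1 - ε) ^ |D| E` and `(1 + ε) ^ |D| E`, `E` the sum over `n ≤ x` of the products of
the asymptotic probabilities of the `n + d`, and `N ≥ x ^ (δ / 2)`; (2) for all `δ, η > 0` there are sets `D x`,
not depending on chance, of at most `(1 + δ) log x / log log x` integers in `[0, x ^ η]`, admissible at the
primes of `Q`, such that almost surely `N = 0` for all large `x`. -/
theorem Pool.Agent.Results.MP_f686a1_nt.SharpThreshold.result
    {Ω : Type} [m : MeasurableSpace Ω] (μ : Measure Ω) [IsProbabilityMeasure μ]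
    (ℱ : Filtration ℕ m) (A : ℕ → Set Ω) :
    (HawkinsSieve μ ℱ A → SievedModel μ ℱ A ∅) ∧
    (∀ Q : Finset ℕ, (∀ p ∈ Q, p.Prime) → SievedModel μ ℱ A Q →
      (∀ᵐ ω ∂μ, ∀ C : ℕ, ∀ δ ε : ℝ, 0 < δ → δ < 1 → 0 < ε → ε < 1 → ∀ᶠ x : ℕ in atTop, ∀ D : Finset ℕ,
        (∀ d ∈ D, d ≤ x ^ C) → Admissible Q D →
        (D.card : ℝ) ≤ (1 - δ) * (Real.log x / Real.log (Real.log x)) →
        (1 - ε) ^ D.card * expected Q D x ≤ tuples A ω D x ∧
        tuples A ω D x ≤ (1 + ε) ^ D.card * expected Q D x ∧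
        (x : ℝ) ^ (δ / 2) ≤ tuples A ω D x) ∧
      (∀ δ η : ℝ, 0 < δ → 0 < η → ∃ D : ℕ → Finset ℕ,
        (∀ᶠ x : ℕ in atTop, (∀ d ∈ D x, (d : ℝ) ≤ (x : ℝ) ^ η) ∧ Admissible Q (D x) ∧
          ((D x).card : ℝ) ≤ (1 + δ) * (Real.log x / Real.log (Real.log x))) ∧
        ∀ᵐ ω ∂μ, ∀ᶠ x : ℕ in atTop, tuples A ω (D x) x = 0)) := by
  classical
  constructor
  · rintro ⟨h1, h2, h3⟩
    have hs : Pool.Agent.N740.HK.HS μ ℱ A := ⟨h1, h2, fun n hn => by
      filter_upwards [h3 n hn] with ω hω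
      have e : (∏ h ∈ Finset.Icc 2 n, if ω ∈ A h then 1 - 1 / (h : ℝ) else 1) =
          (Pool.Agent.N740.HK.Y A n ω)⁻¹ := by
        unfold Pool.Agent.N740.HK.Y
        rw [← Finset.prod_inv_distrib]
        refine Finset.prod_congr rfl fun h hh => ?_
        have h2 : (2 : ℝ) ≤ h := by exact_mod_cast (Finset.mem_Icc.1 hh).1
        by_cases hA : ω ∈ A h
        · rw [if_pos hA, if_pos hA, inv_div]
          field_simp
        · rw [if_neg hA, if_neg hA, inv_one]
      rw [← e]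
      exact hω⟩
    refine ⟨h1, fun n hn => ?_, ?_⟩
    · obtain ⟨p, hp, _⟩ := hn
      exact absurd hp (Finset.notMem_empty p)
    · filter_upwards [Pool.Agent.N740.HK.hawk_dens hs] with ω hω
      rw [Finset.prod_empty]
      exact hω.mono_left inf_le_left
  · rintro Q hQ ⟨hA, hcop, hd⟩
    constructor
    · filter_upwards [Pool.Agent.N893.SM.grow (μ := μ) hA Q hQ hcop hd] with ω hω C δ ε hδ0 hδ1 hε0 hε1
      filter_upwards [hω C δ ε hδ0 hδ1 hε0 hε1] with x hx D hD hadm hk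
      have h := hx D (fun d hd => Finset.mem_range.2 (Nat.lt_succ_of_le (hD d hd))) (adm_sing hQ hadm) hk
      rw [← expected_eq A Q hQ, ← tuples_eq] at h
      exact h
    · intro δ η hδ hη
      refine ⟨fun x => Pool.Agent.N893.SM.Dj (∏ p ∈ Q, p) δ η (Nat.log 2 x), ?_, ?_⟩
      · filter_upwards [size_Dj Q hQ hδ η, range_Dj Q hQ hδ hη] with x h1 h2
        exact ⟨h2, adm_Dj hQ δ η _, h1⟩
      · filter_upwards [Pool.Agent.N893.SM.none (μ := μ) hA Q hQ hcop hd hδ hη] with ω hω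
        filter_upwards [tendsto_log2.eventually hω, eventually_ge_atTop 2] with x hx h2
        obtain ⟨_, h4⟩ := log_bounds h2
        unfold tuples
        have : {m : ℕ | 1 ≤ m ∧ m ≤ x ∧ ∀ d ∈ Pool.Agent.N893.SM.Dj (∏ p ∈ Q, p) δ η (Nat.log 2 x), ω ∈ A (m + d)} = ∅ := by
          ext n
          simp only [mem_ofPred_eq, mem_empty_iff_false, iff_false, not_and]
          intro hn1 hn2 hn3
          obtain ⟨d, hd1, hd2⟩ := hx (n - 1) (by omega)
          rw [show n - 1 + 1 = n by omega] at hd2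
          exact hd2 (hn3 d hd1)
        rw [this, ncard_empty]
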