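import Pool.Agent.N646.TP.Main

/-!
# Every thick set of shifts up to `x` splits into boundedly many classes of good shifts

Let `V` be a set of integers in `[0, x]`, congruent to each other modulo a constant `M`, which contains a
positive proportion of the integers at distance at most `λ log x` from `V`.  Then `V` is, up to `ε |V|`
elements, a union of boundedly many disjoint sets `A_j` such that almost all the `(k + 1)`-tuples of elements of
each `A_j` have the right number (up to a constant) of prime translates `n + y_0, ..., n + y_k`, `n ≤ x`.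

The multidimensional sieve weights (large hitting sets with the constant `18 / 5`) are those of the starting
files; the proof that dense sets of vertices contain large almost cliques uses the hitting property for most
configurations (project RG and RO of this team, in particular helper31, helper591, helper595, helper646).
-/

set_option autoImplicit false

open Finset Filter

namespace Pool.Agent.Results.MP_f686a1_nt.ThickShiftSets

/-- at least `κ x / (log x) ^ (k + 1)` integers `1 ≤ n ≤ x` make `n + y 0, ..., n + y k` all prime -/
def RightOrder {k : ℕ} (κ : ℝ) (x : ℕ) (y : Fin (k + 1) → ℕ) : Prop :=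
  κ * x / Real.log x ^ (k + 1) ≤ ({n : ℕ | 1 ≤ n ∧ n ≤ x ∧ ∀ i, (n + y i).Prime}.ncard : ℝ)

/-- the number of the `y ∈ A ^ (k + 1)` which have two equal entries or which do not satisfy
`RightOrder κ x` -/
noncomputable def exceptions (k : ℕ) (κ : ℝ) (x : ℕ) (A : Finset ℕ) : ℕ :=
  {y : Fin (k + 1) → ℕ | (∀ i, y i ∈ A) ∧ ¬ (Function.Injective y ∧ RightOrder κ x y)}.ncard

/-- the number of the integers `m ≥ 0` at distance at most `L` from `V` -/
noncomputable def near (V : Finset ℕ) (L : ℝ) : ℕ :=
  {m : ℕ | ∃ v ∈ V, |(m : ℝ) - v| ≤ L}.ncard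

/-- For all `k` and `ε > 0` there are `M` and `R` such that for all `η, lam > 0` there is `κ > 0` with: for all
large `x` and every set `V ⊆ [0, x]` of integers congruent to each other modulo `M` with at least
`η near V (lam log x)` elements there are `r ≤ R` and `A 0, ..., A (r - 1)` such that `A j` is contained in
`V \ (A 0 ∪ ... ∪ A (j - 1))` and contains at least the proportion `5 / 18 - ε` of this set, all but
`ε |A j| ^ (k + 1)` of the `y ∈ (A j) ^ (k + 1)` have distinct entries and the right order, and at most
`ε |V|` elements of `V` are in none of the `A j`. -/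
theorem result (k : ℕ) (ε : ℝ) (hε : 0 < ε) : ∃ M R : ℕ, 1 ≤ M ∧ ∀ η lam : ℝ, 0 < η → 0 < lam →
    ∃ κ : ℝ, 0 < κ ∧ ∀ᶠ x : ℕ in atTop, ∀ V ⊆ range (x + 1),
      (∀ v ∈ V, ∀ w ∈ V, v ≡ w [MOD M]) → η * near V (lam * Real.log x) ≤ V.card →
      ∃ r ≤ R, ∃ A : ℕ → Finset ℕ, (∀ j < r, A j ⊆ V \ (range j).biUnion A ∧
        (5 / 18 - ε) * ((V \ (range j).biUnion A).card : ℝ) ≤ (A j).card ∧
        (exceptions k κ x (A j) : ℝ) ≤ ε * ((A j).card : ℝ) ^ (k + 1)) ∧
        ((V \ (range r).biUnion A).card : ℝ) ≤ ε * V.card :=
  Pool.Agent.N646.TP.main k ε hε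

end Pool.Agent.Results.MP_f686a1_nt.ThickShiftSets
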